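import Mathlib

set_option maxHeartbeats 400000

namespace Pool.Agent.H.MP_e44225_nt

open Real

lemma pigeon (P : Finset ℕ) (hne : P.Nonempty) (N : ℕ) (hN : 1 ≤ N) :
    ∃ f : P → ℤ, f ≠ 0 ∧ (∀ p, |f p| ≤ N) ∧
      |∑ p : P, (f p : ℝ) * log (p : ℕ)| ≤ (N * (∑ p : P, log (p : ℕ)) + 1) / (N : ℝ) ^ P.card := by
  classical
  set Λ := ∑ p : P, log (p : ℕ) with hΛ
  have hlog : ∀ p : P, 0 ≤ log (p : ℕ) := fun p => log_natCast_nonneg _
  have hΛ0 : 0 ≤ Λ := Finset.sum_nonneg fun p _ => hlog p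
  have hNp : (0 : ℝ) < (N : ℝ) ^ P.card := by positivity
  have hD : (0 : ℝ) < N * Λ + 1 := by positivity
  let L : (P → Fin (N + 1)) → ℝ := fun e => ∑ p : P, ((e p : ℕ) : ℝ) * log (p : ℕ)
  have hL0 : ∀ e, 0 ≤ L e := fun e => Finset.sum_nonneg fun p _ => mul_nonneg (by positivity) (hlog p)
  have hL1 : ∀ e, L e ≤ N * Λ := by
    intro e
    rw [hΛ, Finset.mul_sum]
    refine Finset.sum_le_sum fun p _ => mul_le_mul_of_nonneg_right ?_ (hlog p)
    exact_mod_cast Nat.lt_succ_iff.1 (e p).2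
  obtain ⟨e, -, e', -, hee, hfl⟩ := Finset.exists_ne_map_eq_of_card_lt_of_maps_to
    (s := (Finset.univ : Finset (P → Fin (N + 1)))) (t := Finset.range (N ^ P.card))
    (f := fun e => ⌊L e * (N : ℝ) ^ P.card / (N * Λ + 1)⌋₊)
    (by
      simp only [Finset.card_range, Finset.card_univ, Fintype.card_fun, Fintype.card_fin,
        Fintype.card_coe]
      exact Nat.pow_lt_pow_left (Nat.lt_succ_self N) hne.card_pos.ne')
    (by
      intro e _
      simp only [Finset.coe_range, Set.mem_Iio]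
      rw [Nat.floor_lt (div_nonneg (mul_nonneg (hL0 e) hNp.le) hD.le), div_lt_iff₀ hD]
      push_cast
      nlinarith [hL1 e])
  refine ⟨fun p => (e p : ℕ) - (e' p : ℕ), ?_, fun p => ?_, ?_⟩
  · intro h
    apply hee
    funext p
    have := congrFun h p
    simp only [Pi.zero_apply] at this
    ext
    omega
  · have := (e p).2
    have := (e' p).2
    simp only [abs_le]
    constructor <;> omega
  · have h1 : ∑ p : P, ((((e p : ℕ) : ℤ) - (e' p : ℕ) : ℤ) : ℝ) * log (p : ℕ) = L e - L e' := by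
      simp only [L, ← Finset.sum_sub_distrib]
      refine Finset.sum_congr rfl fun p _ => ?_
      push_cast
      ring
    rw [h1]
    have a1 := Nat.floor_le (div_nonneg (mul_nonneg (hL0 e) hNp.le) hD.le)
    have a2 := Nat.lt_floor_add_one (L e * (N : ℝ) ^ P.card / (N * Λ + 1))
    have b1 := Nat.floor_le (div_nonneg (mul_nonneg (hL0 e') hNp.le) hD.le)
    have b2 := Nat.lt_floor_add_one (L e' * (N : ℝ) ^ P.card / (N * Λ + 1))
    rw [hfl] at a1 a2
    have h2 : |L e * (N : ℝ) ^ P.card / (N * Λ + 1) - L e' * (N : ℝ) ^ P.card / (N * Λ + 1)| ≤ 1 := by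
      rw [abs_le]
      constructor <;> linarith
    rw [← sub_div, ← sub_mul, abs_div, abs_mul, abs_of_pos hD, abs_of_pos hNp, div_le_one hD] at h2
    rwa [le_div_iff₀ hNp]

lemma norm_prod (P : Finset ℕ) (hP : ∀ p ∈ P, p.Prime) (f : P → ℤ) (q : P) :
    padicNorm q (∏ p : P, ((p : ℕ) : ℚ) ^ f p) = ((q : ℕ) : ℚ) ^ (-f q) := by
  classical
  have : Fact (q : ℕ).Prime := ⟨hP _ q.2⟩
  have h1 : padicNorm q (∏ p : P, ((p : ℕ) : ℚ) ^ f p) =
      ∏ p : P, padicNorm q ((p : ℕ) : ℚ) ^ f p := by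
    have := map_prod (IsAbsoluteValue.abvHom (padicNorm q)) (fun p : P => ((p : ℕ) : ℚ) ^ f p)
      Finset.univ
    simp only [map_zpow₀] at this
    exact this
  rw [h1, Finset.prod_eq_single q]
  · rw [padicNorm.padicNorm_p_of_prime, inv_zpow', ]
  · intro p _ hp
    have : Fact (p : ℕ).Prime := ⟨hP _ p.2⟩
    rw [padicNorm.padicNorm_of_prime_of_ne (fun h => hp (Subtype.ext h.symm)), one_zpow]
  · simp

lemma height_le (a b : ℕ) (ha : 0 < a) (hb : 0 < b) :
    Height.logHeight₁ ((a : ℚ) / b) ≤ max (log a) (log b) := by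
  rw [Rat.logHeight₁_eq_log_max]
  have h1 : ((a : ℚ) / b).num.natAbs ≤ a := by
    have := Rat.num_dvd (a : ℤ) (b := (b : ℤ)) (by omega)
    rw [Rat.divInt_eq_div] at this
    push_cast at this
    have := Int.natAbs_dvd_natAbs.2 this
    exact Nat.le_of_dvd ha (by simpa using this)
  have h2 : ((a : ℚ) / b).den ≤ b := by
    have := Rat.den_dvd (a : ℤ) (b : ℤ)
    rw [Rat.divInt_eq_div] at this
    push_cast at this
    exact Nat.le_of_dvd hb (by exact_mod_cast this)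
  have h3 : 0 < max ((a : ℚ) / b).num.natAbs ((a : ℚ) / b).den :=
    lt_max_of_lt_right ((a : ℚ) / b).den_pos
  rcases le_total a b with h | h
  · refine le_max_of_le_right (log_le_log (by exact_mod_cast h3) ?_)
    exact_mod_cast max_le (h1.trans h) h2
  · refine le_max_of_le_left (log_le_log (by exact_mod_cast h3) ?_)
    exact_mod_cast max_le h1 (h2.trans h)

lemma posLog_add_inv (y : ℝ) : log⁺ y + log⁺ y⁻¹ = |log y| := by
  simp only [posLog_apply, log_inv]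
  rcases le_total 0 (log y) with h | h
  · rw [max_eq_right h, max_eq_left (by linarith), abs_of_nonneg h, add_zero]
  · rw [max_eq_left h, max_eq_right (by linarith), abs_of_nonpos h, zero_add]

theorem key (P : Finset ℕ) (hP : ∀ p ∈ P, p.Prime) (hne : P.Nonempty) (N : ℕ) (hN : 1 ≤ N)
    (hε : (N * (∑ p : P, log (p : ℕ)) + 1) / (N : ℝ) ^ P.card ≤ 1) :
    ∃ x : ℚ, x ≠ 0 ∧ x ≠ 1 ∧ Height.logHeight₁ x ≤ N * (∑ p : P, log (p : ℕ)) + 1 ∧
      -log (2 * ((N * (∑ p : P, log (p : ℕ)) + 1) / (N : ℝ) ^ P.card)) - 1 ≤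
        -2 * Height.logHeight₁ x + ((log⁺ |(x : ℝ)| + log⁺ |((x⁻¹ : ℚ) : ℝ)| +
          log⁺ |(((x - 1)⁻¹ : ℚ) : ℝ)|) + ∑ p ∈ P, (log⁺ (padicNorm p x : ℝ) +
            log⁺ (padicNorm p x⁻¹ : ℝ) + log⁺ (padicNorm p (x - 1)⁻¹ : ℝ))) := by
  classical
  obtain ⟨f, hf0, hfN, hf⟩ := pigeon P hne N hN
  set ε := (N * (∑ p : P, log (p : ℕ)) + 1) / (N : ℝ) ^ P.card with hεdef
  set x : ℚ := ∏ p : P, ((p : ℕ) : ℚ) ^ f p with hx
  have hp0 : ∀ p : P, 0 < (p : ℕ) := fun p => (hP _ p.2).pos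
  have hlog : ∀ p : P, 0 ≤ log (p : ℕ) := fun p => log_natCast_nonneg _
  have hxpos : 0 < x := Finset.prod_pos fun p _ => zpow_pos (by exact_mod_cast hp0 p) _
  have hx1 : x ≠ 1 := by
    intro h
    apply hf0
    funext q
    have h1 := norm_prod P hP f q
    rw [← hx, h, padicNorm.one] at h1
    have h2 : (1 : ℚ) < (q : ℕ) := by exact_mod_cast (hP _ q.2).one_lt
    have := (zpow_eq_one_iff_right₀ (by linarith) h2.ne').1 h1.symm
    simpa using this
  have hlx : log (x : ℝ) = ∑ p : P, (f p : ℝ) * log (p : ℕ) := by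
    rw [hx]
    push_cast
    rw [log_prod]
    · simp only [log_zpow]
    · intro p _
      exact zpow_ne_zero _ (by exact_mod_cast (hp0 p).ne')
  set A : ℕ := ∏ p : P, (p : ℕ) ^ (f p).toNat with hA
  set B : ℕ := ∏ p : P, (p : ℕ) ^ (-f p).toNat with hB
  have hA0 : 0 < A := Finset.prod_pos fun p _ => pow_pos (hp0 p) _
  have hB0 : 0 < B := Finset.prod_pos fun p _ => pow_pos (hp0 p) _
  have hxAB : x = (A : ℚ) / B := by
    rw [hx, hA, hB]
    push_cast
    rw [← Finset.prod_div_distrib]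
    refine Finset.prod_congr rfl fun p _ => ?_
    rw [← zpow_natCast, ← zpow_natCast, ← zpow_sub₀ (by exact_mod_cast (hp0 p).ne')]
    congr 1
    omega
  have hlA : log (A : ℝ) = ∑ p : P, ((f p).toNat : ℝ) * log (p : ℕ) := by
    rw [hA]
    push_cast
    rw [log_prod]
    · simp only [log_pow]
    · intro p _
      exact pow_ne_zero _ (by exact_mod_cast (hp0 p).ne')
  have hlB : log (B : ℝ) = ∑ p : P, ((-f p).toNat : ℝ) * log (p : ℕ) := by
    rw [hB]
    push_cast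
    rw [log_prod]
    · simp only [log_pow]
    · intro p _
      exact pow_ne_zero _ (by exact_mod_cast (hp0 p).ne')
  have hsum : log (A : ℝ) + log (B : ℝ) = ∑ p : P, |(f p : ℝ)| * log (p : ℕ) := by
    rw [hlA, hlB, ← Finset.sum_add_distrib]
    refine Finset.sum_congr rfl fun p _ => ?_
    rw [← add_mul]
    congr 1
    have : (((f p).toNat : ℤ) + ((-f p).toNat : ℤ)) = |f p| := by
      rcases le_total 0 (f p) with h | h
      · rw [abs_of_nonneg h]; omega
      · rw [abs_of_nonpos h]; omega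
    exact_mod_cast this
  have hdiff : log (A : ℝ) - log (B : ℝ) = log (x : ℝ) := by
    rw [hxAB]
    push_cast
    rw [log_div (by exact_mod_cast hA0.ne') (by exact_mod_cast hB0.ne')]
  have hT : ∑ p : P, |(f p : ℝ)| * log (p : ℕ) ≤ N * ∑ p : P, log (p : ℕ) := by
    rw [Finset.mul_sum]
    refine Finset.sum_le_sum fun p _ => mul_le_mul_of_nonneg_right ?_ (hlog p)
    exact_mod_cast hfN p
  have hT0 : 0 ≤ ∑ p : P, |(f p : ℝ)| * log (p : ℕ) :=
    Finset.sum_nonneg fun p _ => mul_nonneg (abs_nonneg _) (hlog p)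
  rw [← hlx] at hf
  have hf1 := abs_le.1 (hf.trans hε)
  have hh : 2 * Height.logHeight₁ x ≤ ∑ p : P, |(f p : ℝ)| * log (p : ℕ) + 1 := by
    have := height_le A B hA0 hB0
    rw [← hxAB] at this
    rcases le_max_iff.1 this with h | h <;> linarith [hf1.1, hf1.2]
  refine ⟨x, hxpos.ne', hx1, by linarith, ?_⟩
  have hfin : ∑ p : P, |(f p : ℝ)| * log (p : ℕ) ≤ ∑ p ∈ P, (log⁺ (padicNorm p x : ℝ) +
      log⁺ (padicNorm p x⁻¹ : ℝ) + log⁺ (padicNorm p (x - 1)⁻¹ : ℝ)) := by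
    rw [← Finset.sum_coe_sort P]
    refine Finset.sum_le_sum fun q _ => ?_
    have : Fact (q : ℕ).Prime := ⟨hP _ q.2⟩
    have h1 : padicNorm q x⁻¹ = (padicNorm q x)⁻¹ :=
      map_inv₀ (IsAbsoluteValue.abvHom (padicNorm q)) x
    rw [h1, Rat.cast_inv, posLog_add_inv, hx, norm_prod P hP f q]
    push_cast
    rw [log_zpow, abs_mul, abs_of_nonneg (hlog q)]
    push_cast
    rw [abs_neg]
    exact le_add_of_nonneg_right posLog_nonneg
  have hinf : -log (2 * ε) ≤ log⁺ |(((x - 1)⁻¹ : ℚ) : ℝ)| := by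
    have h1 : |(x : ℝ) - 1| ≤ 2 * ε := by
      have := abs_exp_sub_one_le (hf.trans hε)
      rw [exp_log (by exact_mod_cast hxpos)] at this
      linarith
    have h2 : 0 < |(x : ℝ) - 1| := by
      rw [abs_pos, sub_ne_zero]
      exact_mod_cast hx1
    refine le_trans ?_ (le_max_right _ _)
    push_cast
    rw [abs_inv, log_inv, neg_le_neg_iff]
    exact log_le_log h2 h1
  have := posLog_nonneg (x := |(x : ℝ)|)
  have := posLog_nonneg (x := |((x⁻¹ : ℚ) : ℝ)|)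
  linarith

theorem main (C : ℝ) (hC : 0 < C) :
    ∃ P : Finset ℕ, (∀ p ∈ P, p.Prime) ∧
      ∀ (hK hA m : ℚ → ℝ) (B : ℝ),
        (∀ x, |hK x - (-2) * Height.logHeight₁ x| ≤ B) →
        (∀ x, |hA x - Height.logHeight₁ x| ≤ B) →
        (∀ x, x ≠ 0 → x ≠ 1 →
          |m x - ((log⁺ |(x : ℝ)| + log⁺ |((x⁻¹ : ℚ) : ℝ)| + log⁺ |(((x - 1)⁻¹ : ℚ) : ℝ)|) +
            ∑ p ∈ P, (log⁺ (padicNorm p x : ℝ) + log⁺ (padicNorm p x⁻¹ : ℝ) +
              log⁺ (padicNorm p (x - 1)⁻¹ : ℝ)))| ≤ B) →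
        Set.Infinite {x : ℚ | x ≠ 0 ∧ x ≠ 1 ∧
          ¬ (hK x + m x < C * log⁺ (hA x) + log |(NumberField.discr ℚ : ℝ)|)} := by
  obtain ⟨P, hP, hcard⟩ := Nat.infinite_setOfPred_prime.exists_subset_card_eq (⌈C⌉₊ + 2)
  have hP' : ∀ p ∈ P, p.Prime := fun p hp => hP hp
  refine ⟨P, hP', fun hK hA m B h1 h2 h3 => ?_⟩
  have hB : 0 ≤ B := (abs_nonneg _).trans (h1 0)
  set Λ := ∑ p : P, log (p : ℕ) with hΛ
  have hΛ0 : 0 ≤ Λ := Finset.sum_nonneg fun p _ => log_natCast_nonneg _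
  have hun : ∀ R : ℝ, ∃ x : ℚ, x ≠ 0 ∧ x ≠ 1 ∧ R ≤ hK x + m x - C * log⁺ (hA x) := by
    intro R
    obtain ⟨N, hN⟩ := exists_nat_ge
      (max (Λ + 1) (exp (R + 2 * B + 1 + log (2 * (Λ + 1)) + C * log (Λ + 1 + B))))
    have hN2 : Λ + 1 ≤ N := (le_max_left _ _).trans hN
    have hN1 : (1 : ℝ) ≤ N := by linarith
    have hN3 : R + 2 * B + 1 + log (2 * (Λ + 1)) + C * log (Λ + 1 + B) ≤ log N := by
      rw [le_log_iff_exp_le (by linarith)]
      exact (le_max_right _ _).trans hN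
    have hlN : 0 ≤ log (N : ℝ) := log_nonneg hN1
    have hNpos : (0 : ℝ) < N := by linarith
    have he : (N * Λ + 1) / (N : ℝ) ^ P.card ≤ (Λ + 1) / (N : ℝ) ^ (⌈C⌉₊ + 1) := by
      rw [hcard, div_le_div_iff₀ (by positivity) (by positivity), pow_succ _ (⌈C⌉₊ + 1)]
      have : (0 : ℝ) < (N : ℝ) ^ (⌈C⌉₊ + 1) := by positivity
      nlinarith
    have he1 : (Λ + 1) / (N : ℝ) ^ (⌈C⌉₊ + 1) ≤ 1 := by
      rw [div_le_one (by positivity)]
      exact hN2.trans (le_self_pow₀ hN1 (by omega))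
    obtain ⟨x, hx0, hx1, hh, hm⟩ := key P hP' (Finset.card_pos.1 (by omega)) N
      (by exact_mod_cast hN1) (he.trans he1)
    refine ⟨x, hx0, hx1, ?_⟩
    have a1 := abs_le.1 (h1 x)
    have a2 := abs_le.1 (h2 x)
    have a3 := abs_le.1 (h3 x hx0 hx1)
    have a4 : log (2 * ((N * Λ + 1) / (N : ℝ) ^ P.card)) ≤
        log (2 * (Λ + 1)) - (⌈C⌉₊ + 1) * log N := by
      refine (log_le_log (by positivity) (mul_le_mul_of_nonneg_left he zero_le_two)).trans ?_
      rw [← mul_div_assoc, log_div (by positivity) (by positivity), log_pow]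
      push_cast
      exact le_rfl
    have hh0 : 0 ≤ Height.logHeight₁ x := Height.zero_le_logHeight₁ x
    have a5 : log⁺ (hA x) ≤ log N + log (Λ + 1 + B) := by
      rw [← log_mul (by positivity) (by positivity), ← posLog_abs,
        ← posLog_eq_log (x := N * (Λ + 1 + B))]
      · refine posLog_le_posLog (abs_nonneg _) ?_
        rw [abs_le]
        constructor <;> nlinarith [a2.1, a2.2]
      · rw [abs_of_nonneg (by positivity)]
        nlinarith
    have a6 : C * log N ≤ ⌈C⌉₊ * log N := mul_le_mul_of_nonneg_right (Nat.le_ceil C) hlN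
    have a7 := mul_le_mul_of_nonneg_left a5 hC.le
    nlinarith [a1.1, a3.1]
  intro hfin
  obtain ⟨R, hR⟩ := (hfin.image fun x => hK x + m x - C * log⁺ (hA x)).bddAbove
  obtain ⟨x, hx0, hx1, hx⟩ := hun (max (R + 1) 0)
  have h4 : hK x + m x - C * log⁺ (hA x) ≤ R := by
    refine hR ⟨x, ⟨hx0, hx1, ?_⟩, rfl⟩
    rw [NumberField.discr_rat]
    have := le_max_right (R + 1) 0
    simp only [Int.cast_one, abs_one, log_one, add_zero, not_lt]
    linarith
  linarith [le_max_left (R + 1) 0]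

end Pool.Agent.H.MP_e44225_nt
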